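import Pool.Agent.MP_c1891a_nt.H43.Spec3
import Pool.Agent.MP_c1891a_nt.H93.Push

/-
The norm of a Laurent polynomial with integral coefficients in a number field.
-/

namespace Pool.Agent.MP_c1891a_nt.H43

open Finset Polynomial

theorem normL_fix {z : ℂ} (hz : IsIntegral ℤ z) (h : ∀ θ : ℂ ≃+* ℂ, θ z = z) :
    ∃ n : ℤ, algebraMap ℤ ℂ n = z := by
  obtain ⟨K, _, _, ι₀, c, hc⟩ := num_field ({()} : Finset Unit) (fun _ => z)
    fun _ _ => (hz.tower_top (A := ℚ)).isAlgebraic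
  have hc' : ι₀ (c ()) = z := hc () (mem_singleton_self _)
  have h1 : ∀ σ : K →ₐ[ℚ] ℂ, σ (c ()) = z := fun σ => by
    obtain ⟨θ, hθ⟩ := ext_aut ι₀ σ.toRingHom
    have := hθ (c ())
    rw [hc', h θ] at this
    exact this.symm
  have h2 := trace_eq_sum_embeddings ℂ (K := ℚ) (L := K) (x := c ())
  rw [sum_congr rfl fun σ _ => h1 σ, sum_const, card_univ, AlgHom.card, nsmul_eq_mul] at h2
  have h3 : (Module.finrank ℚ K : ℂ) ≠ 0 := Nat.cast_ne_zero.2 Module.finrank_pos.ne'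
  have h4 : algebraMap ℚ ℂ (Algebra.trace ℚ K (c ()) / Module.finrank ℚ K) = z := by
    rw [map_div₀, h2, map_natCast, mul_div_cancel_left₀ _ h3]
  rw [← h4] at hz
  obtain ⟨n, hn⟩ := IsIntegrallyClosed.isIntegral_iff.1 (int_map (algebraMap ℚ ℂ) |>.1 hz)
  exact ⟨n, by rw [← h4, ← hn]; simp⟩

/-- the conjugate polynomial. -/
noncomputable def normLP (S : Finset (ℤ × ℤ)) (c : ℤ × ℤ → ℂ) : LC :=
  ∑ μ ∈ S, AddMonoidAlgebra.single μ (c μ)

theorem normL_map (θ : ℂ →+* ℂ) (S : Finset (ℤ × ℤ)) (c : ℤ × ℤ → ℂ) :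
    AddMonoidAlgebra.mapRingHom (ℤ × ℤ) θ (normLP S c) = normLP S fun μ => θ (c μ) := by
  simp only [normLP, map_sum, AddMonoidAlgebra.mapRingHom_single]

theorem normL_lift (S : Finset (ℤ × ℤ)) (c : ℤ × ℤ → ℂ) {x y : ℂ} (hx : x ≠ 0) (hy : y ≠ 0) :
    AddMonoidAlgebra.lift ℂ ℂ (ℤ × ℤ) (pushChar x y hx hy) (normLP S c) = evS S c x y := by
  simp only [normLP, map_sum, AddMonoidAlgebra.lift_single, evS]
  refine sum_congr rfl fun μ _ => ?_
  simp [pushChar, mul_assoc]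

theorem normL_mem (S : Finset (ℤ × ℤ)) (c : ℤ × ℤ → ℂ) (hc : ∀ μ ∈ S, IsIntegral ℤ (c μ)) :
    normLP S c ∈ (AddMonoidAlgebra.mapRingHom (ℤ × ℤ)
      (integralClosure ℤ ℂ).val.toRingHom).range := by
  refine Subring.sum_mem _ fun μ hμ => ⟨AddMonoidAlgebra.single μ ⟨c μ, hc μ hμ⟩, ?_⟩
  rw [AddMonoidAlgebra.mapRingHom_single]
  rfl

theorem sNormL : SNormL := by
  intro K _ _ ι₀ S c hc h0
  have hτ : ∀ τ : K →+* ℂ, NoCosetS S fun μ => τ (c μ) := by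
    intro τ x y hx hy a b hab
    obtain ⟨θ, hθ⟩ := ext_aut τ ι₀
    obtain ⟨t, t0, ht⟩ := h0 (θ x) (θ y) (by simpa using hx) (by simpa using hy) a b hab
    refine ⟨θ.symm t, by simpa using t0, fun e => ht ?_⟩
    have := evS_map θ.toRingHom S (fun μ => τ (c μ)) (x * θ.symm t ^ a) (y * θ.symm t ^ b)
    rw [e, map_zero] at this
    simpa [hθ, map_zpow₀] using this.symm
  let NP : LC := ∏ τ : K →+* ℂ, normLP S fun μ => τ (c μ)
  have hint : ∀ μ, IsIntegral ℤ (NP.coeff μ) := by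
    intro μ
    obtain ⟨Q, hQ⟩ : NP ∈ (AddMonoidAlgebra.mapRingHom (ℤ × ℤ)
        (integralClosure ℤ ℂ).val.toRingHom).range :=
      Subring.prod_mem _ fun τ _ => normL_mem S _ fun ν hν => (int_map τ).2 (hc ν hν)
    rw [← hQ, AddMonoidAlgebra.coeff_mapRingHom]
    exact (Q.coeff μ).2
  have hfix : ∀ (θ : ℂ ≃+* ℂ) μ, θ (NP.coeff μ) = NP.coeff μ := by
    intro θ μ
    have hb : Function.Bijective fun τ : K →+* ℂ => θ.toRingHom.comp τ :=
      Finite.injective_iff_bijective.1 fun τ τ' e =>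
        RingHom.ext fun r => θ.injective (RingHom.congr_fun e r)
    have h1 : AddMonoidAlgebra.mapRingHom (ℤ × ℤ) θ.toRingHom NP = NP := by
      rw [map_prod]
      refine Fintype.prod_bijective _ hb _ _ fun τ => ?_
      rw [normL_map]
      rfl
    have h2 := AddMonoidAlgebra.coeff_mapRingHom θ.toRingHom NP μ
    rw [h1] at h2
    exact h2.symm
  obtain ⟨R, hR⟩ : NP ∈ Set.range (AddMonoidAlgebra.map (M := ℤ × ℤ)
      (algebraMap ℤ ℂ).toAddMonoidHom) := by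
    rw [AddMonoidAlgebra.range_map]
    exact fun μ => normL_fix (hint μ) fun θ => hfix θ μ
  have hev : ∀ x y : ℂ, x ≠ 0 → y ≠ 0 →
      ev R x y = ∏ τ : K →+* ℂ, evS S (fun μ => τ (c μ)) x y := by
    intro x y hx hy
    have h1 : AddMonoidAlgebra.mapRingHom (ℤ × ℤ) (algebraMap ℤ ℂ) R = NP := hR
    have h2 := AddMonoidAlgebra.lift_mapRingHom_algebraMap (R := ℤ) (S := ℂ) (A := ℂ)
      (pushChar x y hx hy) R
    rw [h1, map_prod] at h2
    rw [← push_hom_eq x y hx hy]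
    refine Eq.trans h2.symm (prod_congr rfl fun τ _ => normL_lift S _ hx hy)
  refine ⟨R, fun x y hx hy a b hab => ?_, hτ, hev⟩
  by_contra hn
  push Not at hn
  have h1 : (X * ∏ τ : K →+* ℂ, FS S (fun μ => τ (c μ)) x y a b : ℂ[X]) ≠ 0 :=
    mul_ne_zero X_ne_zero (prod_ne_zero_iff.2 fun τ _ => (hτ τ).FS_ne hx hy hab)
  refine h1 (Polynomial.zero_of_eval_zero _ fun t => ?_)
  rw [eval_mul, eval_X]
  by_cases t0 : t = 0
  · rw [t0, zero_mul]
  have h2 := hn t t0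
  rw [hev _ _ (mul_ne_zero hx (zpow_ne_zero _ t0)) (mul_ne_zero hy (zpow_ne_zero _ t0))] at h2
  obtain ⟨τ, _, h3⟩ := prod_eq_zero_iff.1 h2
  rw [eval_prod, prod_eq_zero (mem_univ τ) (by rw [FS_eval _ _ _ _ _ _ t0, h3, mul_zero]),
    mul_zero]

end Pool.Agent.MP_c1891a_nt.H43
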