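import Pool.Agent.MP_c1891a_nt.H43.Spec

/-
Liouville's inequality with two generators.
-/

namespace Pool.Agent.MP_c1891a_nt.H43

open Finset Polynomial Module

lemma lv_int {x : ℂ} (h : ∀ V : ValuationSubring ℂ, (∀ y, IsIntegral ℤ y → y ∈ V) → x ∈ V) :
    IsIntegral ℤ x := by
  by_contra hx
  have : IsIntegrallyClosedIn (integralClosure ℤ ℂ).toSubring ℂ :=
    inferInstanceAs (IsIntegrallyClosedIn (integralClosure ℤ ℂ) ℂ)
  obtain ⟨V, h1, h2⟩ := Subring.exists_le_valuationSubring_of_isIntegrallyClosedIn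
    (R := (integralClosure ℤ ℂ).toSubring) (x := x) hx
  exact h2 (h V fun y hy => h1 hy)

lemma lv_step (V : ValuationSubring ℂ) (g : ℂ[X]) (α : ℂ)
    (hf : ∀ n, ((X - C α) * g).coeff n ∈ V) :
    ∃ g' : ℂ[X], (∀ n, g'.coeff n ∈ V) ∧ g ∣ g' ∧
      V.valuation g'.leadingCoeff = V.valuation g.leadingCoeff * max 1 (V.valuation α) := by
  by_cases hα : α ∈ V
  · refine ⟨g, fun n => ?_, dvd_rfl, ?_⟩
    · rw [← mul_divByMonic_cancel_left g (monic_X_sub_C α), coeff_divByMonic_X_sub_C]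
      exact sum_mem fun i _ => mul_mem (pow_mem hα _) (hf i)
    · rw [max_eq_left ((V.valuation_le_one_iff α).2 hα), mul_one]
  · have h0 : α ≠ 0 := fun e => hα (e ▸ V.zero_mem)
    have hi : α⁻¹ ∈ V := (V.mem_or_inv_mem α).resolve_left hα
    refine ⟨C α * g, fun n => ?_, dvd_mul_left _ _, ?_⟩
    · rw [coeff_C_mul]
      induction n with
      | zero =>
        have := neg_mem (hf 0)
        simpa using this
      | succ n ih =>
        have := sub_mem (mul_mem hi ih) (hf (n + 1))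
        rw [mul_comm (X - C α), coeff_mul_X_sub_C, inv_mul_cancel_left₀ h0, sub_sub_cancel,
          mul_comm] at this
        exact this
    · have : 1 ≤ V.valuation α := le_of_not_ge fun h => hα ((V.valuation_le_one_iff α).1 h)
      rw [leadingCoeff_mul, leadingCoeff_C, map_mul, max_eq_right this, mul_comm]

lemma lv_val (V : ValuationSubring ℂ) {κ : Type} (α : κ → ℂ) (S : Finset κ) :
    ∀ f : ℂ[X], (∀ n, f.coeff n ∈ V) → ∏ i ∈ S, (X - C (α i)) ∣ f →
      V.valuation f.leadingCoeff * ∏ i ∈ S, max 1 (V.valuation (α i)) ≤ 1 := by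
  classical
  induction S using Finset.induction_on with
  | empty =>
    intro f hf _
    rw [prod_empty, mul_one]
    exact (V.valuation_le_one_iff _).2 (hf _)
  | insert a S ha ih =>
    rintro f hf ⟨g, rfl⟩
    rw [prod_insert ha, mul_assoc] at hf ⊢
    obtain ⟨g', h1, h2, h3⟩ := lv_step V _ _ hf
    have := ih g' h1 ((dvd_mul_right _ _).trans h2)
    rw [h3] at this
    rwa [prod_insert ha, leadingCoeff_monic_mul (monic_X_sub_C _), ← mul_assoc]

lemma lv_mahler {κ : Type} (α : κ → ℂ) (S : Finset κ) {f : ℂ[X]}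
    (h : ∏ i ∈ S, (X - C (α i)) ∣ f) :
    ‖f.leadingCoeff‖ * ∏ i ∈ S, max 1 ‖α i‖ ≤ f.mahlerMeasure := by
  classical
  obtain ⟨g, rfl⟩ := h
  have e : (∏ i ∈ S, (X - C (α i))).mahlerMeasure = ∏ i ∈ S, max 1 ‖α i‖ := by
    induction S using Finset.induction_on with
    | empty => simp
    | insert a S ha ih =>
      rw [prod_insert ha, prod_insert ha, mahlerMeasure_mul, ih, mahlerMeasure_X_sub_C]
  rw [mahlerMeasure_mul, e, leadingCoeff_monic_mul (monic_prod_X_sub_C α S), mul_comm]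
  exact mul_le_mul_of_nonneg_left (leadingCoeff_le_mahlerMeasure g)
    (prod_nonneg fun _ _ => le_max_of_le_left zero_le_one)

lemma lv_lead (T : ℤ[X]) : (cx T).leadingCoeff = (T.leadingCoeff : ℂ) :=
  leadingCoeff_map_of_injective (RingHom.injective_int _) T

theorem sLV : SLV := by
  classical
  intro K _ _ σ₀ ι I c a b p q m n H Tp Tq hc hH hs hp0 hq0 hp hq hβ
  set β := ∑ i ∈ I, c i * p ^ a i * q ^ b i with hβd
  have hσ : ∀ σ : K →+* ℂ, σ β = ∑ i ∈ I, σ (c i) * σ p ^ a i * σ q ^ b i := fun σ => by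
    simp only [hβd, map_sum, map_mul, map_pow]
  have hN : algebraMap ℚ ℂ (Algebra.norm ℚ β) = ∏ σ : K →+* ℂ, σ β := by
    rw [Algebra.norm_eq_prod_embeddings, ← Fintype.prod_equiv (RingHom.equivRatAlgHom K ℂ)
      (fun f => f β) (fun φ => φ β) fun _ => by simp [RingHom.equivRatAlgHom_apply]]
  have hint : IsIntegral ℤ ((Tp.leadingCoeff : ℂ) ^ m * (Tq.leadingCoeff : ℂ) ^ n *
      ∏ σ : K →+* ℂ, σ β) := by
    refine lv_int fun V hV => (V.valuation_le_one_iff _).1 ?_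
    have hT : ∀ (T : ℤ[X]) k, (cx T).coeff k ∈ V := fun T k => by
      rw [cx, coeff_map]
      exact intCast_mem V _
    have h1 := lv_val V (fun σ : K →+* ℂ => σ p) univ _ (hT Tp) hp
    have h2 := lv_val V (fun σ : K →+* ℂ => σ q) univ _ (hT Tq) hq
    rw [lv_lead] at h1 h2
    have h3 : ∀ σ : K →+* ℂ, V.valuation (σ β) ≤
        max 1 (V.valuation (σ p)) ^ m * max 1 (V.valuation (σ q)) ^ n := fun σ => by
      rw [hσ]
      refine Valuation.map_sum_le _ fun i hi => ?_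
      rw [map_mul, map_mul, map_pow, map_pow, mul_assoc]
      refine (mul_le_of_le_one_left' ((V.valuation_le_one_iff _).2
        (hV _ ((hc i hi).1.map σ.toIntAlgHom)))).trans (mul_le_mul' ?_ ?_)
      · exact (pow_le_pow_left' (le_max_right _ _) _).trans
          (pow_le_pow_right' (le_max_left _ _) (hc i hi).2.1)
      · exact (pow_le_pow_left' (le_max_right _ _) _).trans
          (pow_le_pow_right' (le_max_left _ _) (hc i hi).2.2)
    rw [map_mul, map_mul, map_pow, map_pow, map_prod]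
    refine (mul_le_mul' le_rfl (prod_le_prod' fun σ _ => h3 σ)).trans ?_
    rw [prod_mul_distrib, prod_pow, prod_pow, mul_mul_mul_comm, ← mul_pow, ← mul_pow]
    exact mul_le_one' (pow_le_one' h1 _) (pow_le_one' h2 _)
  have hone : 1 ≤ ‖(Tp.leadingCoeff : ℂ) ^ m * (Tq.leadingCoeff : ℂ) ^ n *
      ∏ σ : K →+* ℂ, σ β‖ := by
    have e : (Tp.leadingCoeff : ℂ) ^ m * (Tq.leadingCoeff : ℂ) ^ n * ∏ σ : K →+* ℂ, σ β =
        algebraMap ℚ ℂ ((Tp.leadingCoeff : ℚ) ^ m * (Tq.leadingCoeff : ℚ) ^ n *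
          Algebra.norm ℚ β) := by
      rw [map_mul, hN]
      simp
    rw [e] at hint ⊢
    obtain ⟨z, hz⟩ := IsIntegrallyClosed.isIntegral_iff.1
      ((isIntegral_algebraMap_iff (algebraMap ℚ ℂ).injective).1 hint)
    have z0 : z ≠ 0 := by
      rintro rfl
      rw [map_zero] at hz
      exact mul_ne_zero (mul_ne_zero
        (pow_ne_zero _ (Int.cast_ne_zero.2 (leadingCoeff_ne_zero.2 hp0)))
        (pow_ne_zero _ (Int.cast_ne_zero.2 (leadingCoeff_ne_zero.2 hq0))))
        (Algebra.norm_ne_zero_iff.2 hβ) hz.symm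
    rw [← hz]
    simp only [eq_intCast, map_intCast, Complex.norm_intCast]
    exact_mod_cast Int.one_le_abs z0
  have h3 : ∀ σ : K →+* ℂ, ‖σ β‖ ≤ H * (max 1 ‖σ p‖ ^ m * max 1 ‖σ q‖ ^ n) := fun σ => by
    have hn : 0 ≤ max 1 ‖σ p‖ ^ m * max 1 ‖σ q‖ ^ n := by positivity
    refine le_trans ?_ (mul_le_mul_of_nonneg_right (hs σ) hn)
    rw [hσ, sum_mul]
    refine norm_sum_le_of_le _ fun i hi => ?_
    rw [norm_mul, norm_mul, norm_pow, norm_pow, mul_assoc]
    refine mul_le_mul_of_nonneg_left (mul_le_mul ?_ ?_ (by positivity) (by positivity))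
      (norm_nonneg _)
    · exact (pow_le_pow_left₀ (norm_nonneg _) (le_max_right _ _) _).trans
        (pow_le_pow_right₀ (le_max_left _ _) (hc i hi).2.1)
    · exact (pow_le_pow_left₀ (norm_nonneg _) (le_max_right _ _) _).trans
        (pow_le_pow_right₀ (le_max_left _ _) (hc i hi).2.2)
  have h4 : ∏ σ : K →+* ℂ, ‖σ β‖ ≤
      ‖σ₀ β‖ * ∏ σ : K →+* ℂ, H * (max 1 ‖σ p‖ ^ m * max 1 ‖σ q‖ ^ n) := by
    rw [← mul_prod_erase univ _ (mem_univ σ₀), ← mul_prod_erase univ _ (mem_univ σ₀)]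
    refine mul_le_mul_of_nonneg_left ?_ (norm_nonneg _)
    refine (prod_le_prod (fun _ _ => norm_nonneg _) fun σ _ => h3 σ).trans
      (le_mul_of_one_le_left (prod_nonneg fun σ _ => (norm_nonneg _).trans (h3 σ)) ?_)
    exact one_le_mul_of_one_le_of_one_le hH (one_le_mul_of_one_le_of_one_le
      (one_le_pow₀ (le_max_left _ _)) (one_le_pow₀ (le_max_left _ _)))
  rw [prod_mul_distrib, prod_mul_distrib, prod_pow, prod_pow, prod_const, card_univ,
    NumberField.Embeddings.card] at h4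
  have h1 := lv_mahler (fun σ : K →+* ℂ => σ p) univ hp
  have h2 := lv_mahler (fun σ : K →+* ℂ => σ q) univ hq
  rw [lv_lead] at h1 h2
  have n1 : 0 ≤ ∏ σ : K →+* ℂ, max 1 ‖σ p‖ := prod_nonneg fun _ _ => by positivity
  have n2 : 0 ≤ ∏ σ : K →+* ℂ, max 1 ‖σ q‖ := prod_nonneg fun _ _ => by positivity
  have h0 : 0 ≤ H := zero_le_one.trans hH
  rw [norm_mul, norm_mul, norm_pow, norm_pow, norm_prod] at hone
  refine hone.trans ((mul_le_mul_of_nonneg_left h4 (by positivity)).trans ?_)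
  calc _ = ‖σ₀ β‖ * H ^ finrank ℚ K *
        (‖(Tp.leadingCoeff : ℂ)‖ * ∏ σ : K →+* ℂ, max 1 ‖σ p‖) ^ m *
        (‖(Tq.leadingCoeff : ℂ)‖ * ∏ σ : K →+* ℂ, max 1 ‖σ q‖) ^ n := by
        rw [mul_pow, mul_pow]
        ring
    _ ≤ _ := by
        have := mahlerMeasure_nonneg (cx Tp)
        gcongr

end Pool.Agent.MP_c1891a_nt.H43
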