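import Pool.Agent.MP_c1891a_nt.H91.Spec

/-
A weak form of Dobrowolski's lower bound, by an auxiliary polynomial found by pigeonhole.
-/

namespace Pool.Agent.MP_c1891a_nt.H91

open Finset Polynomial

/-- the complex roots -/
noncomputable def dobR (g : ℤ[X]) : Finset ℂ := (g.map (Int.castRingHom ℂ)).roots.toFinset

/-- the product of the roots outside the unit disc -/
noncomputable def dobM (g : ℤ[X]) : ℝ := ∏ α ∈ dobR g, max 1 ‖α‖

/-- fewer than `N` coefficients, all at most `B` -/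
def dobBd (N : ℕ) (B : ℝ) (G : ℤ[X]) : Prop :=
  (∀ n, N ≤ n → G.coeff n = 0) ∧ ∀ n, |(G.coeff n : ℝ)| ≤ B

variable {g : ℤ[X]}

theorem dob_eval (G : ℤ[X]) (α : ℂ) : (G.map (Int.castRingHom ℂ)).eval α = aeval α G := by
  rw [eval_map, aeval_def, algebraMap_int_eq]

theorem dob_mem (hg : g.Monic) {α : ℂ} : α ∈ dobR g ↔ aeval α g = 0 := by
  rw [dobR, Multiset.mem_toFinset, mem_roots (hg.map _).ne_zero, IsRoot, dob_eval]

theorem dob_dvd (hg : g.Monic) (hi : Irreducible g) {α : ℂ} (hα : α ∈ dobR g) {G : ℤ[X]}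
    (hG : aeval α G = 0) : g ∣ G := by
  have h0 := (dob_mem hg).1 hα
  have hint : IsIntegral ℤ α := ⟨g, hg, h0⟩
  exact ((minpoly.irreducible hint).dvd_symm hi (minpoly.isIntegrallyClosed_dvd hint h0)).trans
    (minpoly.isIntegrallyClosed_dvd hint hG)

theorem dob_irr (hg : g.Monic) (hi : Irreducible g) : Irreducible (g.map (algebraMap ℤ ℚ)) :=
  (hg.irreducible_iff_irreducible_map_fraction_map (K := ℚ)).1 hi

theorem dob_sep (hg : g.Monic) (hi : Irreducible g) : (g.map (Int.castRingHom ℂ)).Separable := by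
  have h := (dob_irr hg hi).separable.map (f := algebraMap ℚ ℂ)
  rw [Polynomial.map_map] at h
  have e : (algebraMap ℚ ℂ).comp (algebraMap ℤ ℚ) = Int.castRingHom ℂ := RingHom.ext_int _ _
  rwa [e] at h

theorem dob_prod (hg : g.Monic) (hi : Irreducible g) {M : Type} [CommMonoid M] (f : ℂ → M) :
    ∏ α ∈ dobR g, f α = ((g.map (Int.castRingHom ℂ)).roots.map f).prod := by
  rw [dobR, Finset.prod, Multiset.toFinset_val, (nodup_roots (dob_sep hg hi)).dedup]

theorem dob_card (hg : g.Monic) (hi : Irreducible g) : (dobR g).card = g.natDegree := by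
  rw [dobR, Multiset.toFinset_card_of_nodup (nodup_roots (dob_sep hg hi)),
    ← (IsAlgClosed.splits _).natDegree_eq_card_roots, hg.natDegree_map]

theorem dob_mahler (hg : g.Monic) (hi : Irreducible g) :
    (g.map (Int.castRingHom ℂ)).mahlerMeasure = dobM g := by
  rw [mahlerMeasure_eq_leadingCoeff_mul_prod_roots, (hg.map _).leadingCoeff, norm_one, one_mul,
    dobM, dob_prod hg hi]

theorem dob_one_le_M : 1 ≤ dobM g := Finset.one_le_prod fun _ _ => le_max_left _ _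

theorem dob_norm_int (hg : g.Monic) (hi : Irreducible g) (G : ℤ[X]) :
    ∃ z : ℤ, ∏ α ∈ dobR g, aeval α G = z := by
  refine ⟨resultant g G g.natDegree G.natDegree, ?_⟩
  have h := resultant_eq_prod_eval (g.map (Int.castRingHom ℂ)) (G.map (Int.castRingHom ℂ))
    G.natDegree natDegree_map_le (IsAlgClosed.splits _)
  rw [hg.natDegree_map, resultant_map_map, (hg.map _).leadingCoeff, one_pow, one_mul,
    ← dob_prod hg hi] at h
  simp only [dob_eval] at h
  rw [← h]; rfl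

theorem dob_one_le (hg : g.Monic) (hi : Irreducible g) {G : ℤ[X]} (hG : ¬ g ∣ G) :
    1 ≤ ∏ α ∈ dobR g, ‖aeval α G‖ := by
  obtain ⟨z, hz⟩ := dob_norm_int hg hi G
  have h0 : z ≠ 0 := by
    rintro rfl
    obtain ⟨α, hα, h⟩ := Finset.prod_eq_zero_iff.1 (hz.trans Int.cast_zero)
    exact hG (dob_dvd hg hi hα h)
  rw [← norm_prod, hz, Complex.norm_intCast]
  exact_mod_cast Int.one_le_abs h0

theorem dob_pow_dvd (hg : g.Monic) (hi : Irreducible g) {α : ℂ} (hα : α ∈ dobR g) (S : ℕ) :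
    ∀ F : ℤ[X], F ≠ 0 → S ≤ (F.map (Int.castRingHom ℂ)).rootMultiplicity α → g ^ S ∣ F := by
  induction S with
  | zero => intro F _ _; simp
  | succ S ih =>
    intro F hF h
    have hr : (F.map (Int.castRingHom ℂ)).IsRoot α := by
      by_contra hc
      rw [rootMultiplicity_eq_zero hc] at h
      omega
    obtain ⟨A, rfl⟩ := dob_dvd hg hi hα ((dob_eval F α).symm.trans hr)
    have hne : g.map (Int.castRingHom ℂ) * A.map (Int.castRingHom ℂ) ≠ 0 := by
      rw [← Polynomial.map_mul]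
      exact (Polynomial.map_ne_zero_iff (Int.castRingHom ℂ).injective_int).2 hF
    rw [Polynomial.map_mul, rootMultiplicity_mul hne] at h
    have h1 := rootMultiplicity_le_one_of_separable (dob_sep hg hi) α
    rw [pow_succ']
    exact mul_dvd_mul_left _ (ih A (right_ne_zero_of_mul hF) (by omega))

theorem dobBd.deriv {N : ℕ} {B : ℝ} {G : ℤ[X]} (h : dobBd N B G) :
    dobBd N (B * N) (derivative G) := by
  have hB : 0 ≤ B := (abs_nonneg _).trans (h.2 0)
  refine ⟨fun n hn => by rw [coeff_derivative, h.1 _ (by omega), zero_mul], fun n => ?_⟩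
  rw [coeff_derivative]
  by_cases hn : N ≤ n + 1
  · rw [h.1 _ hn]; simp; positivity
  · push_cast
    rw [abs_mul, abs_of_nonneg (by positivity : (0 : ℝ) ≤ n + 1)]
    exact mul_le_mul (h.2 _) (by exact_mod_cast (by omega : n + 1 ≤ N)) (by positivity) hB

theorem dobBd.iter {N : ℕ} {B : ℝ} {G : ℤ[X]} (h : dobBd N B G) (s : ℕ) :
    dobBd N (B * N ^ s) (derivative^[s] G) := by
  induction s with
  | zero => simpa using h
  | succ s ih => rw [Function.iterate_succ_apply', pow_succ, ← mul_assoc]; exact ih.deriv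

theorem dobBd.eval {N : ℕ} {B : ℝ} {G : ℤ[X]} (h : dobBd N B G) (α : ℂ) :
    ‖aeval α G‖ ≤ N * B * max 1 ‖α‖ ^ N := by
  have hB : 0 ≤ B := (abs_nonneg _).trans (h.2 0)
  by_cases h0 : G = 0
  · subst h0; simp; positivity
  have hd : G.natDegree < N := by
    by_contra hc
    exact h0 (leadingCoeff_eq_zero.1 (h.1 _ (not_lt.1 hc)))
  rw [aeval_eq_sum_range' hd]
  refine (norm_sum_le _ _).trans ?_
  calc ∑ i ∈ range N, ‖G.coeff i • α ^ i‖ ≤ ∑ _i ∈ range N, B * max 1 ‖α‖ ^ N := by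
        refine sum_le_sum fun i hi => ?_
        rw [zsmul_eq_mul, norm_mul, Complex.norm_intCast, norm_pow]
        refine mul_le_mul (h.2 _) ?_ (by positivity) hB
        exact (pow_le_pow_left₀ (norm_nonneg _) (le_max_right 1 _) i).trans
          (pow_le_pow_right₀ (le_max_left _ _) (mem_range.1 hi).le)
    _ = N * B * max 1 ‖α‖ ^ N := by simp [mul_assoc]

theorem dob_floor {x y : ℝ} (h : ⌊2 * x⌋ = ⌊2 * y⌋) : |x - y| < 1 / 2 := by
  have := Int.abs_sub_lt_one_of_floor_eq_floor h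
  rw [← mul_sub, abs_mul, abs_two] at this
  linarith

theorem dob_floor_mem {x B : ℝ} (h : |x| ≤ B) :
    ⌊2 * x⌋ ∈ Finset.Icc (-(⌈2 * B⌉₊ : ℤ)) ⌈2 * B⌉₊ := by
  have h1 := Nat.le_ceil (2 * B)
  have h2 := abs_le.1 h
  rw [Finset.mem_Icc]
  constructor
  · rw [Int.le_floor]; push_cast; linarith
  · have := Int.floor_le (2 * x)
    exact_mod_cast (by push_cast; linarith : ((⌊2 * x⌋ : ℤ) : ℝ) ≤ ((⌈2 * B⌉₊ : ℤ) : ℝ))

theorem dob_siegel (hg : g.Monic) (hi : Irreducible g) (N H S : ℕ) (hN : 1 ≤ N) (hH : 1 ≤ H)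
    (h : (7 * H * (N : ℝ) ^ (S + 1)) ^ (2 * S * g.natDegree) * dobM g ^ (2 * S * N) <
      (H + 1 : ℝ) ^ N) : ∃ F : ℤ[X], F ≠ 0 ∧ dobBd N H F ∧ g ^ S ∣ F := by
  classical
  set P : (Fin N → ℤ) → ℤ[X] := fun a => ∑ n : Fin N, monomial n (a n) with hP
  have hPc : ∀ a (n : Fin N), (P a).coeff n = a n := by
    intro a n
    simp only [hP, finsetSum_coeff, coeff_monomial, Fin.val_inj]
    simp
  have hPz : ∀ a n, N ≤ n → (P a).coeff n = 0 := by
    intro a n hn
    simp only [hP, finsetSum_coeff, coeff_monomial]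
    exact sum_eq_zero fun i _ => if_neg (by omega)
  have hPb : ∀ a : Fin N → ℤ, (∀ n, |a n| ≤ H) → dobBd N H (P a) := by
    intro a ha
    refine ⟨hPz a, fun n => ?_⟩
    by_cases hn : n < N
    · rw [show n = ((⟨n, hn⟩ : Fin N) : ℕ) from rfl, hPc]; exact_mod_cast ha _
    · rw [hPz a n (not_lt.1 hn)]; simp
  set B : ℂ → ℝ := fun α => H * (N : ℝ) ^ (S + 1) * max 1 ‖α‖ ^ N with hB
  have hN' : (1 : ℝ) ≤ N := by exact_mod_cast hN
  have hH' : (1 : ℝ) ≤ H := by exact_mod_cast hH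
  have hB1 : ∀ α, 1 ≤ B α := fun α =>
    one_le_mul_of_one_le_of_one_le (one_le_mul_of_one_le_of_one_le hH' (one_le_pow₀ hN'))
      (one_le_pow₀ (le_max_left _ _))
  set v : (Fin N → ℤ) → dobR g × Fin S → ℂ := fun a q => aeval (q.1 : ℂ) (derivative^[q.2] (P a))
    with hv
  set T : dobR g × Fin S → Finset (ℤ × ℤ) := fun q =>
    Finset.Icc (-(⌈2 * B q.1⌉₊ : ℤ)) ⌈2 * B q.1⌉₊ ×ˢ Finset.Icc (-(⌈2 * B q.1⌉₊ : ℤ)) ⌈2 * B q.1⌉₊
    with hT
  have hc : #(Fintype.piFinset T) < #(Fintype.piFinset fun _ : Fin N => Finset.Icc (0 : ℤ) H) := by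
    have h1 : (#(Fintype.piFinset T) : ℝ) ≤ ∏ q : dobR g × Fin S, (7 * B q.1) ^ 2 := by
      rw [Fintype.card_piFinset, Nat.cast_prod]
      refine prod_le_prod (fun _ _ => by positivity) fun q _ => ?_
      have e : (Finset.Icc (-(⌈2 * B q.1⌉₊ : ℤ)) ⌈2 * B q.1⌉₊).card = 2 * ⌈2 * B q.1⌉₊ + 1 := by
        rw [Int.card_Icc]; omega
      rw [hT, card_product, e, ← sq, Nat.cast_pow]
      refine pow_le_pow_left₀ (by positivity) ?_ 2
      have := Nat.ceil_lt_add_one (by linarith [hB1 q.1] : 0 ≤ 2 * B q.1)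
      push_cast
      linarith [hB1 q.1]
    have h2 : ∏ q : dobR g × Fin S, (7 * B q.1) ^ 2 =
        (7 * H * (N : ℝ) ^ (S + 1)) ^ (2 * S * g.natDegree) * dobM g ^ (2 * S * N) := by
      rw [Fintype.prod_prod_type]
      simp only [prod_const, card_univ, Fintype.card_fin]
      rw [Finset.prod_coe_sort (dobR g) fun α => ((7 * B α) ^ 2) ^ S, dobM, ← prod_pow,
        ← dob_card hg hi, pow_mul _ _ (#_), ← prod_const, ← prod_mul_distrib]
      exact prod_congr rfl fun α _ => by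
        simp only [hB]; rw [← pow_mul, pow_mul' _ (2 * S), ← mul_pow]; ring
    have h3 : (#(Fintype.piFinset fun _ : Fin N => Finset.Icc (0 : ℤ) H) : ℝ) = (H + 1) ^ N := by
      rw [Fintype.card_piFinset]
      have e : (Finset.Icc (0 : ℤ) H).card = H + 1 := by rw [Int.card_Icc]; omega
      simp [e]
    rw [← h2, ← h3] at h
    exact_mod_cast h1.trans_lt h
  obtain ⟨a, ha, b, hb, hab, he⟩ := exists_ne_map_eq_of_card_lt_of_maps_to hc
    (f := fun a q => (⌊2 * (v a q).re⌋, ⌊2 * (v a q).im⌋)) (by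
      intro a ha
      simp only [Finset.mem_coe, Fintype.mem_piFinset, Finset.mem_Icc] at ha ⊢
      intro q
      have h1 := ((hPb a fun n => abs_le.2 ⟨by linarith [(ha n).1], (ha n).2⟩).iter q.2).eval q.1
      have h2 : ‖v a q‖ ≤ B q.1 := by
        refine h1.trans (mul_le_mul_of_nonneg_right ?_ (by positivity))
        rw [mul_left_comm, ← pow_succ']
        exact mul_le_mul_of_nonneg_left (pow_le_pow_right₀ hN' (by omega)) (by positivity)
      exact mem_product.2 ⟨dob_floor_mem ((Complex.abs_re_le_norm _).trans h2),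
        dob_floor_mem ((Complex.abs_im_le_norm _).trans h2)⟩)
  simp only [Fintype.mem_piFinset, Finset.mem_Icc] at ha hb
  have hs : P (a - b) = P a - P b := by simp [hP, ← sum_sub_distrib]
  have hF : P (a - b) ≠ 0 := fun h0 => hab (funext fun n => by
    have := hPc (a - b) n
    rw [h0, coeff_zero] at this
    exact sub_eq_zero.1 this.symm)
  refine ⟨P (a - b), hF, hPb _ fun n => abs_le.2 ⟨?_, ?_⟩, ?_⟩
  · have := (ha n).1; have := (hb n).2; simp only [Pi.sub_apply]; omega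
  · have := (ha n).2; have := (hb n).1; simp only [Pi.sub_apply]; omega
  have hne : (dobR g).Nonempty := by
    rw [← card_pos, dob_card hg hi]
    exact hg.natDegree_pos_of_not_isUnit hi.not_isUnit
  obtain ⟨α, hα⟩ := hne
  rcases S with _ | S
  · simp
  refine dob_pow_dvd hg hi hα _ _ hF (lt_rootMultiplicity_of_isRoot_iterate_derivative
    ((Polynomial.map_ne_zero_iff (Int.castRingHom ℂ).injective_int).2 hF) fun s hs' => ?_)
  rw [iterate_derivative_map, IsRoot, dob_eval]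
  have hd : g ∣ derivative^[s] (P (a - b)) := by
    by_contra hc
    refine absurd (dob_one_le hg hi hc) (not_le.2 ?_)
    have hlt : ∀ β ∈ dobR g, ‖aeval β (derivative^[s] (P (a - b)))‖ < 1 := by
      intro β hβ
      have e := congrFun he (⟨β, hβ⟩, ⟨s, by omega⟩)
      simp only [Prod.mk.injEq] at e
      have e1 := dob_floor e.1
      have e2 := dob_floor e.2
      rw [hs, iterate_derivative_sub, map_sub]
      refine (Complex.norm_le_abs_re_add_abs_im _).trans_lt ?_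
      simp only [hv] at e1 e2
      rw [Complex.sub_re, Complex.sub_im]
      linarith
    rw [← mul_prod_erase _ _ hα]
    exact mul_lt_one_of_nonneg_of_lt_one_left (norm_nonneg _) (hlt α hα)
      (prod_le_one (fun _ _ => norm_nonneg _) fun β hβ => (hlt β (mem_of_mem_erase hβ)).le)
  obtain ⟨A, hA⟩ := hd
  rw [hA, map_mul, (dob_mem hg).1 hα, zero_mul]

theorem dob_vanish (hg : g.Monic) (hi : Irreducible g) {N H S l : ℕ} {F : ℤ[X]}
    (hF : dobBd N H F) (hd : g ^ S ∣ F) (hl : l.Prime)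
    (h : ((N : ℝ) * H) ^ g.natDegree * dobM g ^ (l * N) < (l : ℝ) ^ (S * g.natDegree)) :
    ∀ α ∈ dobR g, aeval (α ^ l) F = 0 := by
  have := Fact.mk hl
  obtain ⟨W, hW⟩ : C (l : ℤ) ∣ expand ℤ l g - g ^ l := by
    rw [C_dvd_iff_dvd_coeff]
    intro i
    rw [← ZMod.intCast_zmod_eq_zero_iff_dvd]
    have e : (expand ℤ l g - g ^ l).map (Int.castRingHom (ZMod l)) = 0 := by
      rw [Polynomial.map_sub, map_expand, Polynomial.map_pow, ZMod.expand_card, sub_self]
    have := congrArg (fun p => p.coeff i) e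
    simpa only [coeff_map, coeff_zero, eq_intCast] using this
  obtain ⟨A, rfl⟩ := hd
  have hv : ∀ α ∈ dobR g, aeval (α ^ l) (g ^ S * A) =
      (l : ℂ) ^ S * aeval α (W ^ S * expand ℤ l A) := by
    intro α hα
    have e := congrArg (aeval α) hW
    rw [map_sub, map_pow, (dob_mem hg).1 hα, zero_pow hl.ne_zero, sub_zero, expand_aeval,
      map_mul, aeval_C] at e
    rw [map_mul, map_pow, e, map_mul, map_pow, expand_aeval, mul_pow, mul_assoc]
    simp
  by_cases hc : g ∣ W ^ S * expand ℤ l A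
  · intro α hα
    obtain ⟨B, hB⟩ := hc
    rw [hv α hα, hB, map_mul, (dob_mem hg).1 hα, zero_mul, mul_zero]
  refine absurd h (not_lt.2 ?_)
  calc (l : ℝ) ^ (S * g.natDegree)
      ≤ (l : ℝ) ^ (S * g.natDegree) * ∏ α ∈ dobR g, ‖aeval α (W ^ S * expand ℤ l A)‖ :=
        le_mul_of_one_le_right (by positivity) (dob_one_le hg hi hc)
    _ = ∏ α ∈ dobR g, ‖aeval (α ^ l) (g ^ S * A)‖ := by
        rw [pow_mul, ← dob_card hg hi, ← prod_const, ← prod_mul_distrib]
        exact prod_congr rfl fun α hα => by rw [hv α hα, norm_mul, norm_pow, Complex.norm_natCast]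
    _ ≤ ∏ α ∈ dobR g, ((N : ℝ) * H * max 1 ‖α‖ ^ (l * N)) := by
        refine prod_le_prod (fun _ _ => norm_nonneg _) fun α _ => (hF.eval _).trans ?_
        rw [pow_mul]
        refine mul_le_mul_of_nonneg_left (pow_le_pow_left₀ (by positivity) (max_le
          (one_le_pow₀ (le_max_left _ _)) ?_) _) (by positivity)
        rw [norm_pow]
        exact pow_le_pow_left₀ (norm_nonneg _) (le_max_right _ _) _
    _ = _ := by rw [prod_mul_distrib, prod_const, dob_card hg hi, prod_pow, dobM]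

theorem dob_move (hg : g.Monic) (hi : Irreducible g) {α α' β : ℂ} (hα : α ∈ dobR g)
    (hα' : α' ∈ dobR g) (hβ : β ∈ dobR g) {a b : ℕ} (h : α ^ a = β ^ b) :
    ∃ β' ∈ dobR g, α' ^ a = β' ^ b ∧ (β' = α' → β = α) := by
  have hal : ∀ γ ∈ dobR g, γ ∈ algebraicClosure ℚ ℂ := fun γ hγ =>
    mem_algebraicClosure_iff'.2 (IsIntegral.tower_top (R := ℤ) ⟨g, hg, (dob_mem hg).1 hγ⟩)
  have hrt : ∀ x : algebraicClosure ℚ ℂ, (x : ℂ) ∈ dobR g ↔ aeval x g = 0 := by
    intro x
    rw [dob_mem hg, ← map_eq_zero_iff (algebraicClosure ℚ ℂ).val.toRingHom.toIntAlgHom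
      Subtype.val_injective, ← aeval_algHom_apply]
    rfl
  set x : algebraicClosure ℚ ℂ := ⟨α, hal α hα⟩
  set x' : algebraicClosure ℚ ℂ := ⟨α', hal α' hα'⟩
  set y : algebraicClosure ℚ ℂ := ⟨β, hal β hβ⟩
  have hm : g.map (algebraMap ℤ ℚ) = minpoly ℚ x :=
    minpoly.eq_of_irreducible_of_monic (dob_irr hg hi)
      (by rw [aeval_map_algebraMap]; exact (hrt x).1 hα) (hg.map _)
  have hcl : IsAlgClosure ℚ (algebraicClosure ℚ ℂ) := algebraicClosure.isAlgClosure ℚ ℂ
  have hno : Normal ℚ (algebraicClosure ℚ ℂ) := IsAlgClosure.normal ℚ _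
  obtain ⟨σ, hσ⟩ := minpoly.exists_algEquiv_of_root' (K := ℚ) (x := x') (y := x)
    (hcl.isAlgebraic.isAlgebraic x) (by rw [← hm, aeval_map_algebraMap]; exact (hrt x').1 hα')
  refine ⟨(σ y : ℂ), (hrt _).2 ?_, ?_, fun e => ?_⟩
  · have := aeval_algHom_apply σ.toAlgHom.toRingHom.toIntAlgHom y g
    rw [(hrt y).1 hβ, map_zero] at this
    exact this
  · have e : x ^ a = y ^ b := Subtype.ext h
    have e' := congrArg σ e
    rw [map_pow, map_pow, hσ] at e'
    exact congrArg Subtype.val e'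
  · have e' : σ y = σ x := by rw [hσ]; exact Subtype.ext e
    exact congrArg Subtype.val (σ.injective e')

theorem dob_bad (hg : g.Monic) (hi : Irreducible g) (L : Finset ℕ) :
    (∀ l ∈ L, l.Prime ∧ ∃ α ∈ dobR g, ∃ β ∈ dobR g, β ≠ α ∧ α ^ l = β ^ l) →
    ∀ α ∈ dobR g, 2 ^ L.card ≤ #{β ∈ dobR g | β ^ ∏ l ∈ L, l = α ^ ∏ l ∈ L, l} := by
  classical
  induction L using Finset.induction_on with
  | empty => exact fun _ α hα => card_pos.2 ⟨α, by simp [hα]⟩
  | insert l L hl ih =>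
    intro h α hα
    obtain ⟨hp, γ, hγ, δ, hδ, hne, he⟩ := h l (mem_insert_self _ _)
    obtain ⟨α', hα', he', hne'⟩ := dob_move hg hi hγ hα hδ he
    have ih' := ih fun k hk => h k (mem_insert_of_mem hk)
    have hco : Nat.Coprime l (∏ k ∈ L, k) := Nat.Coprime.prod_right fun k hk =>
      (Nat.coprime_primes hp (h k (mem_insert_of_mem hk)).1).2 fun e => hl (e ▸ hk)
    have hdis : α ^ ∏ k ∈ L, k ≠ α' ^ ∏ k ∈ L, k := by
      intro e
      refine hne (hne' ?_)
      by_cases h0 : α' = 0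
      · rw [h0, zero_pow hp.ne_zero] at he'
        rw [h0, pow_eq_zero_iff hp.ne_zero |>.1 he']
      · have e1 : (α / α') ^ l = 1 := by rw [div_pow, he', div_self (pow_ne_zero _ h0)]
        have e2 : (α / α') ^ ∏ k ∈ L, k = 1 := by rw [div_pow, e, div_self (pow_ne_zero _ h0)]
        have e3 := pow_gcd_eq_one.2 ⟨e1, e2⟩
        rw [hco, pow_one, div_eq_one_iff_eq h0] at e3
        exact e3.symm
    rw [card_insert_of_notMem hl, prod_insert hl, pow_succ, mul_two]
    refine (add_le_add (ih' α hα) (ih' α' hα')).trans ?_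
    rw [← card_union_of_disjoint (disjoint_filter.2 fun β _ e1 e2 => hdis (e1.symm.trans e2))]
    refine card_le_card fun β hβ => ?_
    simp only [mem_union, mem_filter] at hβ ⊢
    rcases hβ with ⟨h1, h2⟩ | ⟨h1, h2⟩
    · exact ⟨h1, by rw [pow_mul', h2, pow_mul']⟩
    · exact ⟨h1, by rw [pow_mul', h2, ← pow_mul', pow_mul, ← he', pow_mul]⟩

theorem dob_diff (hg : g.Monic) (hi : Irreducible g) (hM : 1 < dobM g) {α β : ℂ}
    (hα : α ∈ dobR g) (hβ : β ∈ dobR g) {a b : ℕ} (hab : b < a) : α ^ a ≠ β ^ b := by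
  intro h
  obtain ⟨γ, hγ, hmax⟩ := exists_max_image (dobR g) (fun z => ‖z‖) ⟨α, hα⟩
  have h1 : 1 < ‖γ‖ := by
    by_contra hc
    refine hM.ne' (prod_eq_one fun z hz => max_eq_left ((hmax z hz).trans (not_lt.1 hc)))
  obtain ⟨δ, hδ, e, -⟩ := dob_move hg hi hα hγ hβ h
  have e' := congrArg norm e
  rw [norm_pow, norm_pow] at e'
  exact absurd (e'.le.trans (pow_le_pow_left₀ (norm_nonneg _) (hmax δ hδ) b))
    (not_le.2 (pow_lt_pow_right₀ h1 hab))

theorem dob_log {Q : ℕ} (hQ : 9249 ≤ Q) : Real.log Q ≤ Q / 40 := by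
  have h1 : (9249 : ℝ) ≤ Q := by exact_mod_cast hQ
  have h2 : 80 ≤ √Q := Real.le_sqrt_of_sq_le (by linarith)
  have h3 := Real.log_le_sub_one_of_pos (by linarith : 0 < √Q)
  have h4 := Real.mul_self_sqrt (by linarith : (0 : ℝ) ≤ Q)
  rw [Real.log_sqrt (by linarith)] at h3
  nlinarith

theorem dob_primes {Q : ℕ} (hQ : 9249 ≤ Q) : 3 * Q ≤ #(Nat.primesLE (Q ^ 2)) := by
  have h1 : (9249 : ℝ) ≤ Q := by exact_mod_cast hQ
  have h2 := dob_log hQ
  have h3 := Chebyshev.pi_ge (Q ^ 2)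
  have h4 : 0 < Real.log Q := Real.log_pos (by linarith)
  have h5 : Real.log ((Q : ℝ) ^ 2 + 1) ≤ 3 * Real.log Q := by
    rw [show 3 * Real.log Q = Real.log ((Q : ℝ) ^ 3) by simp]
    exact Real.log_le_log (by positivity) (by nlinarith)
  have h6 := Real.log_two_gt_d9
  rw [Nat.primesLE_card_eq_primeCounting]
  push_cast at h3
  rw [Real.log_pow] at h3
  have h7 : (3 * Q : ℝ) ≤ ((Q : ℝ) ^ 2 * Real.log 2 - Real.log ((Q : ℝ) ^ 2 + 1)) /
      ((2 : ℕ) * Real.log Q) := by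
    rw [le_div_iff₀ (by positivity)]
    push_cast
    nlinarith
  exact_mod_cast h7.trans h3

theorem dob_good (hg : g.Monic) (hi : Irreducible g) {Q : ℕ} (hQ : 9249 ≤ Q)
    (hD : g.natDegree ≤ Q ^ 14) : ∃ L : Finset ℕ, L.card = 9249 ∧ ∀ l ∈ L, l.Prime ∧ Q ≤ l ∧
      l ≤ Q ^ 2 ∧ ∀ α ∈ dobR g, ∀ β ∈ dobR g, α ^ l = β ^ l → β = α := by
  classical
  set Bad := {l ∈ Nat.primesLE (Q ^ 2) | ∃ α ∈ dobR g, ∃ β ∈ dobR g, β ≠ α ∧ α ^ l = β ^ l}
    with hBad
  have hne : (dobR g).Nonempty := by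
    rw [← card_pos, dob_card hg hi]
    exact hg.natDegree_pos_of_not_isUnit hi.not_isUnit
  obtain ⟨α, hα⟩ := hne
  have h1 := (dob_bad hg hi Bad (fun l hl => ⟨(Nat.mem_primesLE.1 (mem_filter.1 hl).1).2,
    (mem_filter.1 hl).2⟩) α hα).trans (card_filter_le _ _)
  rw [dob_card hg hi] at h1
  have h2 : #Bad ≤ Q := by
    have h3 : (2 : ℝ) ^ #Bad ≤ (Q : ℝ) ^ 14 := by exact_mod_cast h1.trans hD
    have h4 := Real.log_le_log (by positivity) h3
    rw [Real.log_pow, Real.log_pow] at h4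
    have h5 := dob_log hQ
    have h6 := Real.log_two_gt_d9
    have h7 : (0 : ℝ) ≤ #Bad := by positivity
    have h8 : (#Bad : ℝ) ≤ Q := by push_cast at h4; nlinarith
    exact_mod_cast h8
  have h3 : 9249 ≤ #(Nat.primesLE (Q ^ 2) \ (Bad ∪ range Q)) := by
    have h4 := le_card_sdiff (Bad ∪ range Q) (Nat.primesLE (Q ^ 2))
    have h5 := card_union_le Bad (range Q)
    have h6 := dob_primes hQ
    rw [card_range] at h5
    omega
  obtain ⟨L, hL, hc⟩ := exists_subset_card_eq h3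
  refine ⟨L, hc, fun l hl => ?_⟩
  have h4 := hL hl
  simp only [hBad, mem_sdiff, mem_union, mem_filter, mem_range, not_or, not_lt, not_and] at h4
  have h5 := Nat.mem_primesLE.1 h4.1
  refine ⟨h5.2, h4.2.2, h5.1, fun α hα β hβ e => ?_⟩
  by_contra hc
  exact h4.2.1 h4.1 ⟨α, hα, β, hβ, hc, e⟩

theorem dob_big (hg : g.Monic) (hi : Irreducible g) (hM : 1 < dobM g) {Q K : ℕ} (hK : K = 9249)
    (hQ : K ≤ Q) (hD : g.natDegree ≤ Q ^ 14) : 2 < dobM g ^ (K * Q ^ 2) := by
  classical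
  by_contra hc
  rw [not_lt] at hc
  set D := g.natDegree with hDd
  have hD0 : 0 < D := hg.natDegree_pos_of_not_isUnit hi.not_isUnit
  have hQ' : (9249 : ℝ) ≤ Q := by exact_mod_cast hK ▸ hQ
  have hN : ((K * D : ℕ) : ℝ) ≤ (Q : ℝ) ^ 15 := by
    rw [pow_succ']; exact_mod_cast Nat.mul_le_mul hQ hD
  have hM0 : 0 < dobM g := by linarith
  have hMp : ∀ n, n ≤ Q ^ 2 → dobM g ^ (n * K) ≤ 2 := fun n hn =>
    (pow_le_pow_right₀ hM.le (by rw [mul_comm]; exact Nat.mul_le_mul_left _ hn)).trans hc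
  obtain ⟨F, hF0, hF, hd⟩ := dob_siegel hg hi (K * D) Q 17 (Nat.mul_pos (by omega) hD0)
    (by omega) (by
      rw [← hDd, pow_mul, ← mul_assoc, pow_mul _ _ D, ← mul_pow, pow_mul _ K]
      refine pow_lt_pow_left₀ ?_ (by positivity) hD0.ne'
      have h1 : 7 * (Q : ℝ) * ((K * D : ℕ) : ℝ) ^ (17 + 1) ≤ (Q : ℝ) ^ 272 := by
        calc 7 * (Q : ℝ) * ((K * D : ℕ) : ℝ) ^ (17 + 1) ≤ Q * Q * ((Q : ℝ) ^ 15) ^ (17 + 1) := by
              gcongr; linarith
          _ = (Q : ℝ) ^ 272 := by rw [← pow_mul, ← sq, ← pow_add]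
      calc _ ≤ ((Q : ℝ) ^ 272) ^ (2 * 17) * Q :=
            mul_le_mul (pow_le_pow_left₀ (by positivity) h1 _)
              ((hMp _ (by nlinarith)).trans (by linarith)) (by positivity) (by positivity)
        _ = (Q : ℝ) ^ K := by rw [← pow_mul, ← pow_succ, hK]
        _ < _ := pow_lt_pow_left₀ (by linarith) (by positivity) (by omega))
  obtain ⟨L, hLc, hL⟩ := dob_good hg hi (hK ▸ hQ) hD
  have hz : ∀ l ∈ L, ∀ α ∈ dobR g, aeval (α ^ l) F = 0 := by
    intro l hl
    obtain ⟨hp, h1, h2, -⟩ := hL l hl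
    refine dob_vanish hg hi hF hd hp ?_
    rw [← hDd, ← mul_assoc, pow_mul _ _ D, ← mul_pow, pow_mul (l : ℝ)]
    refine pow_lt_pow_left₀ ?_ (by positivity) hD0.ne'
    calc _ ≤ (Q : ℝ) ^ 15 * Q * 2 :=
          mul_le_mul (mul_le_mul_of_nonneg_right hN (by positivity)) (hMp l h2) (by positivity)
            (by positivity)
      _ < (Q : ℝ) ^ 15 * Q * Q := mul_lt_mul_of_pos_left (by linarith) (by positivity)
      _ = (Q : ℝ) ^ 17 := by ring
      _ ≤ _ := pow_le_pow_left₀ (by positivity) (by exact_mod_cast h1) _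
  have hinj : Set.InjOn (fun q : ℕ × ℂ => q.2 ^ q.1) (L ×ˢ dobR g : Finset _) := by
    rintro ⟨a, α⟩ h1 ⟨b, β⟩ h2 e
    simp only [coe_product, Set.mem_prod, mem_coe] at h1 h2 e
    rcases lt_trichotomy a b with h | rfl | h
    · exact absurd e.symm (dob_diff hg hi hM h2.2 h1.2 h)
    · rw [(hL a h1.1).2.2.2 α h1.2 β h2.2 e]
    · exact absurd e (dob_diff hg hi hM h1.2 h2.2 h)
  have hFc := (Polynomial.map_ne_zero_iff (Int.castRingHom ℂ).injective_int).2 hF0
  have h1 := card_le_degree_of_subset_roots (p := F.map (Int.castRingHom ℂ))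
    (Z := (L ×ˢ dobR g).image fun q : ℕ × ℂ => q.2 ^ q.1) (by
      intro z hz'
      obtain ⟨q, hq, rfl⟩ := mem_image.1 hz'
      rw [mem_roots hFc, IsRoot, dob_eval]
      exact hz _ (mem_product.1 hq).1 _ (mem_product.1 hq).2)
  rw [card_image_of_injOn hinj, card_product, hLc, dob_card hg hi, ← hK, ← hDd] at h1
  exact hF0 (leadingCoeff_eq_zero.1 (hF.1 _ (h1.trans natDegree_map_le)))

theorem dob_arith {q x m a : ℝ} (hm : 0 < m) (hq : 1 ≤ q) (hx : q ^ 2 ≤ x)
    (h : a ≤ 9249 * (q + 1) ^ 2 * m) : a ≤ x * m * (4 * 9249) := by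
  have h6 : (q + 1) ^ 2 ≤ 4 * x := by nlinarith
  nlinarith

theorem dob : SDob := by
  classical
  set T := {p : ℤ[X] | p.natDegree ≤ 9249 ^ 14 ∧
    (p.map (Int.castRingHom ℂ)).mahlerMeasure ≤ (2 : NNReal)} with hT
  have hfin : T.Finite := finite_mahlerMeasure_le _ _
  obtain ⟨c, hc0, hc⟩ : ∃ c : ℝ, 0 < c ∧ ∀ p ∈ T, 1 < dobM p → c ≤ Real.log (dobM p) := by
    refine hfin.induction_on _ ⟨1, one_pos, by simp⟩ ?_
    rintro p s - - ⟨c, hc0, hc⟩
    by_cases hp : 1 < dobM p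
    · refine ⟨min c (Real.log (dobM p)), lt_min hc0 (Real.log_pos hp), ?_⟩
      rintro q (rfl | hq) h
      exacts [min_le_right _ _, (min_le_left _ _).trans (hc q hq h)]
    · refine ⟨c, hc0, ?_⟩
      rintro q (rfl | hq) h
      exacts [absurd h hp, hc q hq h]
  have hl2 : 0 < Real.log 2 := Real.log_pos one_lt_two
  refine ⟨min c (Real.log 2 / (4 * 9249)), lt_min hc0 (by positivity),
    fun g hg hi t ht ht0 hn => ?_⟩
  rw [logMahlerMeasure_eq_log_MahlerMeasure, dob_mahler hg hi]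
  have hM : 1 < dobM g := by
    refine lt_of_le_of_ne dob_one_le_M fun e => ?_
    obtain ⟨n, h1, h2⟩ := pow_eq_one_of_mahlerMeasure_eq_one (p := g)
      ((dob_mahler hg hi).trans e.symm) ht0 (mem_aroots.2 ⟨hg.ne_zero, ht⟩)
    exact hn n h1 h2
  have hm := Real.log_pos hM
  have hD0 : 1 ≤ g.natDegree := hg.natDegree_pos_of_not_isUnit hi.not_isUnit
  have hD1 : (1 : ℝ) ≤ (g.natDegree : ℝ) ^ (1 / 7 : ℝ) :=
    Real.one_le_rpow (by exact_mod_cast hD0) (by norm_num)
  by_cases hD : g.natDegree ≤ 9249 ^ 14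
  · refine le_trans ?_ (le_mul_of_one_le_left hm.le hD1)
    by_cases h2 : dobM g ≤ 2
    · exact (min_le_left _ _).trans (hc g ⟨hD, by rw [dob_mahler hg hi]; exact h2⟩ hM)
    · refine (min_le_right _ _).trans (le_trans ?_ (Real.log_le_log two_pos (not_le.1 h2).le))
      exact div_le_self hl2.le (by norm_num)
  have hex : ∃ Q, g.natDegree ≤ Q ^ 14 := ⟨g.natDegree, Nat.le_self_pow (by norm_num) _⟩
  have h1 := Nat.find_spec hex
  have hQ : 9249 < Nat.find hex := by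
    by_contra h
    exact hD (h1.trans (Nat.pow_le_pow_left (not_lt.1 h) _))
  obtain ⟨Q, hQe⟩ : ∃ Q, Nat.find hex = Q + 1 := ⟨Nat.find hex - 1, by omega⟩
  have h2 := Nat.find_min hex (m := Q) (by omega)
  rw [hQe] at h1 hQ
  have h3 := Real.log_le_log two_pos (dob_big hg hi hM rfl hQ.le h1).le
  rw [Real.log_pow] at h3
  have h4 : (Q : ℝ) ^ 2 ≤ (g.natDegree : ℝ) ^ (1 / 7 : ℝ) := by
    rw [one_div, Real.le_rpow_inv_iff_of_pos (by positivity) (by positivity) (by norm_num),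
      show (7 : ℝ) = (7 : ℕ) by norm_num, Real.rpow_natCast, ← pow_mul]
    exact_mod_cast (not_le.1 h2).le
  have h5 : (1 : ℝ) ≤ Q := by exact_mod_cast (by omega : 1 ≤ Q)
  refine (min_le_right _ _).trans ?_
  rw [div_le_iff₀ (by norm_num)]
  push_cast at h3
  exact dob_arith hm h5 h4 h3

end Pool.Agent.MP_c1891a_nt.H91
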